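import Mathlib

open Cardinal Set Order

namespace Pool.Agent.Results.MP_3e63b3_lc.DominatingNumbers

universe u

/-- The dominating number of the cardinal `τ`: the least size of a family of functions `τ → τ`
such that every function `τ → τ` is everywhere at most some member of the family. -/
noncomputable def domNumber (τ : Cardinal.{u}) : Cardinal.{u} :=
  sInf {c | ∃ (J : Type u) (f : J → τ.ord.ToType → τ.ord.ToType), #J = c ∧
    ∀ g : τ.ord.ToType → τ.ord.ToType, ∃ j, ∀ x, g x ≤ f j x}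

theorem domNumber_spec (τ : Cardinal.{u}) :
    ∃ (J : Type u) (f : J → τ.ord.ToType → τ.ord.ToType), #J = domNumber τ ∧
      ∀ g : τ.ord.ToType → τ.ord.ToType, ∃ j, ∀ x, g x ≤ f j x :=
  csInf_mem (s := {c | ∃ (J : Type u) (f : J → τ.ord.ToType → τ.ord.ToType), #J = c ∧
    ∀ g : τ.ord.ToType → τ.ord.ToType, ∃ j, ∀ x, g x ≤ f j x})
    ⟨_, (τ.ord.ToType → τ.ord.ToType), id, rfl, fun g => ⟨g, fun _ => le_rfl⟩⟩

/-! ### The Specker graph -/

/-- The oriented edges of the Specker graph on `T × T × T`. -/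
def E {T : Type u} [LinearOrder T] (p q : T × T × T) : Prop :=
  p.1 < p.2.1 ∧ p.2.1 < q.1 ∧ q.1 < p.2.2 ∧ p.2.2 < q.2.1 ∧ q.2.1 < q.2.2

/-- The edges of the Specker graph. -/
def Adj {T : Type u} [LinearOrder T] (p q : T × T × T) : Prop := E p q ∨ E q p

theorem no_path {T : Type u} [LinearOrder T] {p q r : T × T × T} (h1 : E p q) (h2 : E q r)
    (h3 : E p r) : False := by
  obtain ⟨a1, a2, a3, a4, a5⟩ := h1
  obtain ⟨b1, b2, b3, b4, b5⟩ := h2
  obtain ⟨c1, c2, c3, c4, c5⟩ := h3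
  exact lt_irrefl _ (c3.trans (a4.trans b2))

theorem no_cycle {T : Type u} [LinearOrder T] {p q r : T × T × T} (h1 : E p q) (h2 : E q r)
    (h3 : E r p) : False := by
  obtain ⟨a1, a2, a3, a4, a5⟩ := h1
  obtain ⟨b1, b2, b3, b4, b5⟩ := h2
  obtain ⟨c1, c2, c3, c4, c5⟩ := h3
  exact lt_irrefl _ (a1.trans (a2.trans (b1.trans (b2.trans (c1.trans c2)))))

theorem no_triangle {T : Type u} [LinearOrder T] {p q r : T × T × T} (h1 : Adj p q)
    (h2 : Adj p r) (h3 : Adj q r) : False := by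
  rcases h1 with h1 | h1 <;> rcases h2 with h2 | h2 <;> rcases h3 with h3 | h3
  · exact no_path h1 h3 h2
  · exact no_path h2 h3 h1
  · exact no_cycle h1 h3 h2
  · exact no_path h2 h1 h3
  · exact no_path h1 h2 h3
  · exact no_cycle h2 h3 h1
  · exact no_path h3 h2 h1
  · exact no_path h3 h1 h2

/-- Every independent set is contained in a box. -/
theorem indep_box {T : Type u} [LinearOrder T] [Nonempty T] {τ : Cardinal.{u}}
    (hT : ∀ (J : Type u) (f : J → T), #J < τ → ∃ a, ∀ j, f j < a) (hI : ∀ a : T, #(Iio a) < τ)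
    (I : Set (T × T × T)) (h : ∀ p ∈ I, ∀ q ∈ I, ¬ E p q) :
    ∃ (α : T) (f g : T → T), ∀ p ∈ I, p.1 ≤ α ∨ p.2.1 ≤ f p.1 ∨ p.2.2 ≤ g p.2.1 := by
  classical
  by_cases H : ∀ α : T, ∃ a > α, ∀ β, ∃ b > β, ∀ γ, ∃ c > γ, (a, b, c) ∈ I
  · exfalso
    obtain ⟨a, -, ha⟩ := H (Classical.arbitrary T)
    obtain ⟨b, hab, hb⟩ := ha a
    obtain ⟨a', hba, ha'⟩ := H b
    obtain ⟨c, hac, hc⟩ := hb a'
    obtain ⟨b', hcb, hb'⟩ := ha' c
    obtain ⟨c', hbc, hc'⟩ := hb' b'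
    exact h _ hc _ hc' ⟨hab, hba, hac, hcb, hbc⟩
  · push Not at H
    obtain ⟨α, hα⟩ := H
    choose! f1 hf1 using hα
    choose! g1 hg1 using hf1
    have hg2 : ∀ b : T, ∃ d, ∀ a : Iio b, g1 a.1 b < d := fun b => hT (Iio b) _ (hI b)
    choose g hg using hg2
    refine ⟨α, fun a => max (f1 a) a, g, ?_⟩
    rintro ⟨a, b, c⟩ hp
    by_contra hcon
    push Not at hcon
    obtain ⟨h1, h2, h3⟩ := hcon
    have h4 : a < b := (le_max_right _ _).trans_lt h2
    have h5 : f1 a < b := (le_max_left _ _).trans_lt h2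
    exact hg1 a h1 b h5 c ((hg b ⟨a, h4⟩).trans h3) hp

/-- There is a point outside of few boxes. -/
theorem avoid {T : Type u} [LinearOrder T] {τ : Cardinal.{u}}
    (hT : ∀ (J : Type u) (f : J → T), #J < τ → ∃ a, ∀ j, f j < a) {J : Type u} (hJ : #J < τ)
    (α : J → T) (f g : J → T → T) :
    ∃ p : T × T × T, ∀ j, α j < p.1 ∧ f j p.1 < p.2.1 ∧ g j p.2.1 < p.2.2 := by
  obtain ⟨a, ha⟩ := hT J α hJ
  obtain ⟨b, hb⟩ := hT J (fun j => f j a) hJ
  obtain ⟨c, hc⟩ := hT J (fun j => g j b) hJ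
  exact ⟨(a, b, c), fun j => ⟨ha j, hb j, hc j⟩⟩

theorem bounded_of_regular {τ : Cardinal.{u}} (hτ : τ.IsRegular) (J : Type u)
    (f : J → τ.ord.ToType) (hJ : #J < τ) : ∃ a, ∀ j, f j < a := by
  by_contra hcon
  push Not at hcon
  have h1 : IsCofinal (range f) := by
    intro a
    obtain ⟨j, hj⟩ := hcon a
    exact ⟨f j, ⟨j, rfl⟩, hj⟩
  have h2 := Order.cof_le h1
  rw [Ordinal.cof_toType, hτ.cof_ord] at h2
  exact absurd (h2.trans mk_range_le) (not_le.2 hJ)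

/-- The colouring, from boxes given by index types `J ν`. -/
theorem main (κ : Cardinal.{u}) (hk0 : ℵ₀ ≤ κ) (S C : Type u) (hS : #S = succ κ)
    (e : C → κ.ord.ToType) (he : ∀ x, ∃ ν, x ≤ e ν) (T : C → Type u)
    [∀ ν, LinearOrder (T ν)] [∀ ν, Nonempty (T ν)] (τ : C → Cardinal.{u})
    (hT : ∀ ν, ∀ (J : Type u) (f : J → T ν), #J < τ ν → ∃ a, ∀ j, f j < a)
    (hI : ∀ ν, ∀ a : T ν, #(Iio a) < τ ν) (hτ : ∀ ν, #(Iic (e ν)) < τ ν)
    (J : C → Type u) (α : ∀ ν, J ν → T ν) (f g : ∀ ν, J ν → T ν → T ν)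
    (hbox : ∀ ν (a : T ν) (F G : T ν → T ν), ∃ j, a ≤ α ν j ∧ (∀ x, F x ≤ f ν j x) ∧
      ∀ x, G x ≤ g ν j x) (hJ : #(∀ ν, J ν) ≤ succ κ) :
    ∃ c : S → S → Option C, (∀ x y, c x y = c y x) ∧
      (∀ ν : C, ∀ x y z, x ≠ y → x ≠ z → y ≠ z →
        ¬ (c x y = some ν ∧ c x z = some ν ∧ c y z = some ν)) ∧
      ∀ X : Set S, #X = succ κ → ∃ x ∈ X, ∃ y ∈ X, x ≠ y ∧ c x y ≠ none := by
  classical
  obtain ⟨_, _, hord⟩ := exists_ord_eq_type_lt S
  have hIio : ∀ β : S, #(Iio β) ≤ κ := by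
    intro β
    have := mk_Iio_lt β hord
    rwa [hS, lt_succ_iff] at this
  have hinj : ∀ β : S, ∃ g : Iio β → κ.ord.ToType, Function.Injective g := by
    intro β
    have h : #(Iio β) ≤ #(κ.ord.ToType) := by rw [mk_ord_toType]; exact hIio β
    obtain ⟨g⟩ := h
    exact ⟨g, g.injective⟩
  choose i hi using hinj
  -- enumeration of the boxes
  have hne : Nonempty (∀ ν, J ν) := by
    refine ⟨fun ν => (hbox ν (Classical.arbitrary _) id id).choose⟩
  obtain ⟨B, hB⟩ : ∃ B : S → ∀ ν, J ν, Function.Surjective B := by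
    rw [← hS] at hJ
    obtain ⟨j⟩ := hJ
    exact ⟨Function.invFun j, Function.invFun_surjective j.injective⟩
  -- the points
  have hpt : ∀ (x : S) (ν : C), ∃ p : T ν × T ν × T ν, ∀ x' : Iio x, i x x' ≤ e ν →
      α ν (B x' ν) < p.1 ∧ f ν (B x' ν) p.1 < p.2.1 ∧ g ν (B x' ν) p.2.1 < p.2.2 := by
    intro x ν
    have h1 : #{x' : Iio x // i x x' ≤ e ν} < τ ν := by
      refine lt_of_le_of_lt (mk_le_of_injective (f := fun x' : {x' : Iio x // i x x' ≤ e ν} =>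
        (⟨i x x'.1, x'.2⟩ : Iic (e ν))) ?_) (hτ ν)
      intro a b hab
      exact Subtype.ext (hi x (congrArg Subtype.val hab))
    obtain ⟨p, hp⟩ := avoid (hT ν) h1 (fun x' => α ν (B x'.1 ν)) (fun x' => f ν (B x'.1 ν))
      (fun x' => g ν (B x'.1 ν))
    exact ⟨p, fun x' hx' => hp ⟨x', hx'⟩⟩
  choose P hP using hpt
  let pick : (C → Prop) → Option C := fun Q => if h : ∃ ν, Q ν then some h.choose else none
  have hpick : ∀ Q ν, pick Q = some ν → Q ν := by
    intro Q ν h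
    by_cases h1 : ∃ ν, Q ν
    · have h2 : pick Q = some h1.choose := dif_pos h1
      rw [h2, Option.some_inj] at h
      rw [← h]
      exact h1.choose_spec
    · have h2 : pick Q = none := dif_neg h1
      rw [h2] at h
      exact absurd h (by simp)
  have hpick2 : ∀ Q ν, Q ν → pick Q ≠ none := by
    intro Q ν h h0
    have h2 : pick Q = some (⟨ν, h⟩ : ∃ ν, Q ν).choose := dif_pos ⟨ν, h⟩
    rw [h2] at h0
    exact absurd h0 (by simp)
  refine ⟨fun x y => pick fun ν => Adj (P x ν) (P y ν), fun x y => ?_, ?_, ?_⟩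
  · refine congrArg pick ?_
    funext ν
    exact propext or_comm
  · rintro ν x y z - - - ⟨h1, h2, h3⟩
    exact no_triangle (hpick _ _ h1) (hpick _ _ h2) (hpick _ _ h3)
  · intro X hX
    by_contra hcon
    push Not at hcon
    have h1 : ∀ ν, ∀ x ∈ X, ∀ y ∈ X, ¬ E (P x ν) (P y ν) := by
      intro ν x hx y hy hE
      by_cases hxy : x = y
      · subst hxy
        exact lt_irrefl _ (hE.1.trans hE.2.1)
      · exact hpick2 _ ν (Or.inl hE) (hcon x hx y hy hxy)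
    have h2 : ∀ ν, ∃ j : J ν, ∀ x ∈ X, (P x ν).1 ≤ α ν j ∨ (P x ν).2.1 ≤ f ν j (P x ν).1 ∨
        (P x ν).2.2 ≤ g ν j (P x ν).2.1 := by
      intro ν
      obtain ⟨a, F, G, h3⟩ := indep_box (hT ν) (hI ν) ((fun x => P x ν) '' X) (by
        rintro _ ⟨x, hx, rfl⟩ _ ⟨y, hy, rfl⟩
        exact h1 ν x hx y hy)
      obtain ⟨j, h4, h5, h6⟩ := hbox ν a F G
      refine ⟨j, fun x hx => ?_⟩
      rcases h3 _ ⟨x, hx, rfl⟩ with h7 | h7 | h7
      · exact Or.inl (h7.trans h4)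
      · exact Or.inr (Or.inl (h7.trans (h5 _)))
      · exact Or.inr (Or.inr (h7.trans (h6 _)))
    choose j hj using h2
    obtain ⟨x', hx'⟩ := hB j
    -- some `x ∈ X` above `x'`
    obtain ⟨x, hx, hlt⟩ : ∃ x ∈ X, x' < x := by
      by_contra h3
      push Not at h3
      have h4 : X ⊆ insert x' (Iio x') := by
        intro x hx
        rcases (h3 x hx).lt_or_eq with h5 | h5
        · exact Or.inr h5
        · exact Or.inl h5
      have h5 : #X ≤ κ + 1 := (mk_le_mk_of_subset h4).trans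
        (mk_insert_le.trans (add_le_add (hIio x') le_rfl))
      rw [hX, add_one_eq hk0] at h5
      exact absurd h5 (not_le.2 (lt_succ κ))
    obtain ⟨ν, hν⟩ := he (i x ⟨x', hlt⟩)
    obtain ⟨h5, h6, h7⟩ := hP x ν ⟨x', hlt⟩ hν
    change α ν (B x' ν) < _ at h5
    change f ν (B x' ν) _ < _ at h6
    change g ν (B x' ν) _ < _ at h7
    rw [hx'] at h5 h6 h7
    rcases hj ν x hx with h8 | h8 | h8
    · exact absurd h8 (not_le.2 h5)
    · exact absurd h8 (not_le.2 h6)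
    · exact absurd h8 (not_le.2 h7)

/-- Let `κ` be a singular cardinal with `κ ^ cf κ = κ⁺` such that `domNumber τ ≤ κ⁺` for cofinally
many regular `τ < κ`.  Then the pairs of a set of size `κ ^ cf κ` can be coloured with the colour
`none` and `cf κ` further colours without monochromatic triangles in the further colours and without
a set of size `κ⁺` all of whose pairs have the colour `none`. -/
theorem result (κ : Cardinal.{u}) (hκ : κ.IsSingular) (hpow : κ ^ κ.ord.cof = succ κ)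
    (hd : ∀ μ < κ, ∃ τ, μ < τ ∧ τ < κ ∧ τ.IsRegular ∧ domNumber τ ≤ succ κ)
    (S C : Type u) (hS : #S = κ ^ κ.ord.cof) (hC : #C = κ.ord.cof) :
    ∃ c : S → S → Option C, (∀ x y, c x y = c y x) ∧
      (∀ ν : C, ∀ x y z, x ≠ y → x ≠ z → y ≠ z →
        ¬ (c x y = some ν ∧ c x z = some ν ∧ c y z = some ν)) ∧
      ∀ X : Set S, #X = succ κ → ∃ x ∈ X, ∃ y ∈ X, x ≠ y ∧ c x y ≠ none := by
  classical
  have hk0 : ℵ₀ ≤ κ := hκ.aleph0_le
  have hW : #(κ.ord.ToType) = κ := mk_ord_toType κ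
  obtain ⟨s, hs, hsc⟩ := Order.exists_cof_eq (α := κ.ord.ToType)
  have hsC : #C = #s := by rw [hC, hsc, Ordinal.cof_toType]
  obtain ⟨e⟩ := Cardinal.eq.1 hsC
  have hIic : ∀ ν : C, #(Iic (e ν : κ.ord.ToType)) < κ := by
    intro ν
    have h := mk_Iic_lt (e ν : κ.ord.ToType) (by simp) (by rw [hW]; exact hk0)
    rwa [hW] at h
  choose τ hτ1 hτ2 hτ3 hτ4 using fun ν : C => hd _ (hIic ν)
  choose J0 f0 hJ0 hf0 using fun ν : C => domNumber_spec (τ ν)
  have hne : ∀ ν, Nonempty (τ ν).ord.ToType := by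
    intro ν
    rw [← mk_ne_zero_iff, mk_ord_toType]
    exact ((aleph0_pos).trans_le (hτ3 ν).aleph0_le).ne'
  refine main κ hk0 S C (hS.trans hpow) (fun ν => e ν) (fun x => ?_) (fun ν => (τ ν).ord.ToType) τ
    (fun ν => bounded_of_regular (hτ3 ν)) (fun ν a => ?_) hτ1
    (fun ν => (τ ν).ord.ToType × J0 ν × J0 ν) (fun ν j => j.1) (fun ν j => f0 ν j.2.1)
    (fun ν j => f0 ν j.2.2) (fun ν a F G => ?_) ?_
  · obtain ⟨y, hy, hxy⟩ := hs x
    exact ⟨e.symm ⟨y, hy⟩, by simpa using hxy⟩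
  · have := mk_Iio_lt a (by simp)
    rwa [mk_ord_toType] at this
  · obtain ⟨j, hj⟩ := hf0 ν F
    obtain ⟨j', hj'⟩ := hf0 ν G
    exact ⟨(a, j, j'), le_rfl, hj, hj'⟩
  · have h1 : ∀ ν, #((τ ν).ord.ToType × J0 ν × J0 ν) ≤ succ κ := by
      intro ν
      simp only [mk_prod, lift_id, hJ0, mk_ord_toType]
      have h2 : ℵ₀ ≤ succ κ := hk0.trans (le_succ κ)
      refine (mul_le_mul' ((hτ2 ν).le.trans (le_succ κ))
        ((mul_le_mul' (hτ4 ν) (hτ4 ν)).trans (mul_eq_self h2).le)).trans (mul_eq_self h2).le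
    rw [mk_pi]
    refine (prod_le_prod _ _ h1).trans ?_
    rw [prod_const, lift_id, lift_id, hC, ← hpow, ← power_mul, ← hC]
    have h3 : ℵ₀ ≤ #C := by
      rw [hC, Ordinal.aleph0_le_cof_iff, Ordinal.one_lt_cof_iff]
      exact isSuccLimit_ord hk0
    rw [mul_eq_self h3]

end Pool.Agent.Results.MP_3e63b3_lc.DominatingNumbers
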