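import Mathlib

open Cardinal Set Order

namespace Pool.Agent.Results.MP_3e63b3_lc.StickFamily

universe u

theorem sfm_union_le {ι α : Type u} {c : Cardinal.{u}} (hc : ℵ₀ ≤ c) (f : ι → Set α)
    (hι : #ι ≤ c) (hf : ∀ i, #(f i) ≤ c) : #(⋃ i, f i : Set α) ≤ c := by
  refine (mk_iUnion_le f).trans ?_
  exact (mul_le_mul' hι (ciSup_le' hf)).trans (mul_eq_self hc).le

/-- A small set `A` such that, above every small `B ⊇ A`, every `Y ξ` has a point
outside `B` whose set mapping meets `B` inside `A`. -/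
theorem sfm_good {V ι : Type u} {l : Cardinal.{u}} (hl : ℵ₀ ≤ l) (D : V → Set V)
    (hD : ∀ v, #(D v) ≤ l) (hι : #ι ≤ l) (Y : ι → Set V)
    (hY : ∀ ξ, succ (succ l) ≤ #(Y ξ)) :
    ∃ A : Set V, #A ≤ l ∧ ∀ B : Set V, A ⊆ B → #B ≤ l →
      ∀ ξ, ∃ v ∈ Y ξ, v ∉ B ∧ D v ∩ B ⊆ A := by
  classical
  by_contra hno
  push Not at hno
  choose! B hAB hBl hξ using hno
  obtain ⟨J, _, _, hJ, hJc⟩ : ∃ (J : Type u) (_ : LinearOrder J) (_ : WellFoundedLT J),
      ord #J = Ordinal.type (α := J) (· < ·) ∧ #J = succ l := by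
    obtain ⟨i1, i2, h⟩ := exists_ord_eq_type_lt (succ l).out
    exact ⟨(succ l).out, i1, i2, h, mk_out _⟩
  let A : J → Set V := WellFounded.fix (r := fun a b : J => a < b) wellFounded_lt
    (fun j ih => ⋃ i : Iio j, B (ih i.1 i.2))
  have hA : ∀ j, A j = ⋃ i : Iio j, B (A i.1) := fun j => WellFounded.fix_eq _ _ _
  have hAl : ∀ j, #(A j) ≤ l := by
    intro j
    induction j using WellFoundedLT.induction with
    | ind j ih =>
      rw [hA]
      refine sfm_union_le hl _ ?_ fun i => hBl _ (ih i.1 i.2)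
      have := mk_Iio_lt j hJ
      rwa [hJc, lt_succ_iff] at this
  have hW : #(⋃ j, B (A j) : Set V) ≤ succ l :=
    sfm_union_le (hl.trans (le_succ l)) _ hJc.le fun j => (hBl _ (hAl j)).trans (le_succ l)
  have ha : ∀ ξ, ∃ v ∈ Y ξ, v ∉ ⋃ j, B (A j) := by
    intro ξ
    obtain ⟨v, hv⟩ := sdiff_nonempty_of_mk_lt_mk
      (hW.trans_lt ((lt_succ (succ l)).trans_le (hY ξ)))
    exact ⟨v, hv.1, hv.2⟩
  choose a haY haW using ha
  have hw : ∀ j, ∃ w, w ∈ B (A j) ∧ w ∉ A j ∧ w ∈ ⋃ ξ, D (a ξ) := by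
    intro j
    obtain ⟨ξ, h⟩ := hξ _ (hAl j)
    have h2 := h (a ξ) (haY ξ) (fun h3 => haW ξ (mem_iUnion.2 ⟨j, h3⟩))
    obtain ⟨w, hw1, hw2⟩ := Set.not_subset.1 h2
    exact ⟨w, hw1.2, hw2, mem_iUnion.2 ⟨ξ, hw1.1⟩⟩
  choose w hwB hwA hwD using hw
  have hlt : ∀ i j, i < j → w i ≠ w j := by
    intro i j hij h
    apply hwA j
    rw [hA, mem_iUnion]
    exact ⟨⟨i, hij⟩, h ▸ hwB i⟩
  have hinj : Function.Injective (fun j => (⟨w j, hwD j⟩ : (⋃ ξ, D (a ξ) : Set V))) := by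
    intro i j hij
    have hij' : w i = w j := congrArg Subtype.val hij
    rcases lt_trichotomy i j with h | h | h
    · exact absurd hij' (hlt i j h)
    · exact h
    · exact absurd hij'.symm (hlt j i h)
  have h1 := mk_le_of_injective hinj
  rw [hJc] at h1
  exact absurd (h1.trans (sfm_union_le hl _ hι fun ξ => hD _)) (not_le.2 (lt_succ l))

/-- Free transversal of `l` large sets for a set mapping of order `l`. -/
theorem sfm_transversal {V ι : Type u} {l : Cardinal.{u}} (hl : ℵ₀ ≤ l) (D : V → Set V)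
    (hD : ∀ v, #(D v) ≤ l) (hirr : ∀ v, v ∉ D v) (hι : #ι ≤ l) (Y : ι → Set V)
    (hY : ∀ ξ, succ (succ l) ≤ #(Y ξ)) :
    ∃ v : ι → V, (∀ ξ, v ξ ∈ Y ξ) ∧ ∀ ξ η, v ξ ∉ D (v η) := by
  classical
  obtain ⟨A, hAl, hA⟩ := sfm_good hl D hD hι Y hY
  rcases isEmpty_or_nonempty ι with hemp | ⟨⟨ξ₀⟩⟩
  · exact ⟨fun ξ => (hemp.false ξ).elim, fun ξ => (hemp.false ξ).elim,
      fun ξ => (hemp.false ξ).elim⟩
  have : Nonempty V := by
    obtain ⟨v, -⟩ := hA A subset_rfl hAl ξ₀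
    exact ⟨v⟩
  choose! p hpY hpB hpD using hA
  obtain ⟨_, _⟩ := exists_wellFoundedLT (α := ι)
  let v : ι → V := WellFounded.fix (r := fun a b : ι => a < b) wellFounded_lt
    (fun ξ ih => p (A ∪ ⋃ η : Iio ξ, ({ih η.1 η.2} ∪ D (ih η.1 η.2))) ξ)
  have hv : ∀ ξ, v ξ = p (A ∪ ⋃ η : Iio ξ, ({v η.1} ∪ D (v η.1))) ξ :=
    fun ξ => WellFounded.fix_eq _ _ _
  have hB : ∀ ξ, #(A ∪ ⋃ η : Iio ξ, ({v η.1} ∪ D (v η.1)) : Set V) ≤ l := by
    intro ξ
    refine (mk_union_le _ _).trans ((add_le_add hAl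
      (sfm_union_le hl _ ((mk_set_le _).trans hι) fun η => ?_)).trans (add_eq_self hl).le)
    refine (mk_union_le _ _).trans ((add_le_add ?_ (hD _)).trans (add_eq_self hl).le)
    rw [mk_singleton]
    exact one_le_aleph0.trans hl
  have h1 : ∀ ξ, v ξ ∈ Y ξ := by
    intro ξ
    rw [hv ξ]
    exact hpY _ subset_union_left (hB ξ) ξ
  have h2 : ∀ ξ, v ξ ∉ A ∪ ⋃ η : Iio ξ, ({v η.1} ∪ D (v η.1)) := by
    intro ξ
    have := hpB _ subset_union_left (hB ξ) ξ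
    rwa [← hv ξ] at this
  have h3 : ∀ ξ, D (v ξ) ∩ (A ∪ ⋃ η : Iio ξ, ({v η.1} ∪ D (v η.1))) ⊆ A := by
    intro ξ
    have := hpD _ subset_union_left (hB ξ) ξ
    rwa [← hv ξ] at this
  refine ⟨v, h1, fun ξ η hm => ?_⟩
  rcases lt_trichotomy ξ η with h | h | h
  · refine h2 ξ (Or.inl (h3 η ⟨hm, Or.inr (mem_iUnion.2 ⟨⟨ξ, h⟩, Or.inl rfl⟩)⟩))
  · subst h
    exact hirr _ hm
  · exact h2 ξ (Or.inr (mem_iUnion.2 ⟨⟨η, h⟩, Or.inr hm⟩))

/-- For every singular `κ` and every family of `κ⁺` subsets of size `κ` of a set `S` of size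
`κ⁺` there is a colouring of the pairs of `S` with colour `none` and `cf κ` further colours,
without monochromatic triangles in the further colours, such that no set of size `κ⁺`
containing a member of the family has all its pairs coloured `none`. -/
theorem result (κ : Cardinal.{u}) (hκ : κ.IsSingular) (S C : Type u) (hS : #S = succ κ)
    (hC : #C = κ.ord.cof) (Y : S → Set S) (hY : ∀ ξ, #(Y ξ) = κ) :
    ∃ c : S → S → Option C, (∀ x y, c x y = c y x) ∧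
      (∀ ν : C, ∀ x y z, x ≠ y → x ≠ z → y ≠ z →
        ¬ (c x y = some ν ∧ c x z = some ν ∧ c y z = some ν)) ∧
      ∀ X : Set S, #X = succ κ → (∃ ξ, Y ξ ⊆ X) → ∃ x ∈ X, ∃ y ∈ X, x ≠ y ∧ c x y ≠ none := by
  classical
  have hk0 : ℵ₀ ≤ κ := hκ.aleph0_le
  obtain ⟨_, _, hord⟩ := exists_ord_eq_type_lt S
  have hIio : ∀ β : S, #(Iio β) ≤ κ := by
    intro β
    have := mk_Iio_lt β hord
    rwa [hS, lt_succ_iff] at this
  -- thresholds
  have hW : #(κ.ord.ToType) = κ := mk_ord_toType κ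
  obtain ⟨s, hs, hsc⟩ := Order.exists_cof_eq (α := κ.ord.ToType)
  have hsC : #C = #s := by rw [hC, hsc, Ordinal.cof_toType]
  obtain ⟨e⟩ := Cardinal.eq.1 hsC
  have hinj : ∀ β : S, ∃ g : Iio β → κ.ord.ToType, Function.Injective g := by
    intro β
    have h : #(Iio β) ≤ #(κ.ord.ToType) := by rw [hW]; exact hIio β
    obtain ⟨g⟩ := h
    exact ⟨g, g.injective⟩
  choose g hg using hinj
  have hlk : ∀ ν : C, ∃ l : Cardinal.{u}, ℵ₀ ≤ l ∧ #(Iic (e ν : κ.ord.ToType)) ≤ l ∧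
      succ (succ l) ≤ κ := by
    intro ν
    have h1 : #(Iic (e ν : κ.ord.ToType)) < κ := by
      have h := mk_Iic_lt (e ν : κ.ord.ToType) (by simp) (by rw [hW]; exact hk0)
      rwa [hW] at h
    have h2 : ℵ₀ < κ := lt_of_le_of_ne hk0 (fun h => not_isSingular_aleph0 (h ▸ hκ))
    exact ⟨max ℵ₀ #(Iic (e ν : κ.ord.ToType)), le_max_left _ _, le_max_right _ _,
      (hκ.isSuccLimit.succ_lt (hκ.isSuccLimit.succ_lt (max_lt h2 h1))).le⟩
  choose l hl0 hlI hlk using hlk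
  -- relevant members of the family
  let R : C → S → Set S := fun ν β => {ξ | ∃ h : ξ ∈ Iio β, g β ⟨ξ, h⟩ ≤ (e ν : κ.ord.ToType)}
  have hR : ∀ ν β, #(R ν β) ≤ l ν := by
    intro ν β
    refine le_trans ?_ (hlI ν)
    refine mk_le_of_injective (f := fun ξ : R ν β =>
      (⟨g β ⟨ξ.1, ξ.2.1⟩, ξ.2.2⟩ : Iic (e ν : κ.ord.ToType))) ?_
    intro a b hab
    have h : (⟨a.1, a.2.1⟩ : Iio β) = ⟨b.1, b.2.1⟩ := hg β (congrArg Subtype.val hab)
    have h2 : a.1 = b.1 := congrArg (fun z : Iio β => z.1) h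
    exact Subtype.ext h2
  have hstep : ∀ (ν : C) (β : S) (E : S → Set S),
      (∀ y, #(E y) ≤ l ν ∧ E y ⊆ Iio y) → ∃ I : Set S, I ⊆ Iio β ∧ #I ≤ l ν ∧
        (∀ x ∈ I, ∀ y ∈ I, x ∉ E y) ∧ ∀ ξ ∈ R ν β, succ (succ (l ν)) ≤ #(Y ξ ∩ Iio β : Set S) →
          (I ∩ Y ξ).Nonempty := by
    intro ν β E hE
    have hι : #{ξ // ξ ∈ R ν β ∧ succ (succ (l ν)) ≤ #(Y ξ ∩ Iio β : Set S)} ≤ l ν := by
      refine le_trans (mk_le_of_injective (f := fun a => (⟨a.1, a.2.1⟩ : R ν β)) ?_) (hR ν β)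
      intro a b hab
      have h2 : a.1 = b.1 := congrArg (fun z : R ν β => z.1) hab
      exact Subtype.ext h2
    obtain ⟨v, hv1, hv2⟩ := sfm_transversal (hl0 ν) E (fun y => (hE y).1)
      (fun y hy => lt_irrefl y ((hE y).2 hy)) hι (fun ξ => Y ξ.1 ∩ Iio β) (fun ξ => ξ.2.2)
    refine ⟨range v, ?_, mk_range_le.trans hι, ?_, ?_⟩
    · rintro _ ⟨ξ, rfl⟩
      exact (hv1 ξ).2
    · rintro _ ⟨ξ, rfl⟩ _ ⟨η, rfl⟩
      exact hv2 ξ η
    · intro ξ hξ hξ2
      exact ⟨v ⟨ξ, hξ, hξ2⟩, ⟨_, rfl⟩, (hv1 ⟨ξ, hξ, hξ2⟩).1⟩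
  choose! P hP1 hP2 hP3 hP4 using hstep
  let D : C → S → Set S := fun ν => WellFounded.fix (r := fun a b : S => a < b) wellFounded_lt
    (fun β ih => P ν β (fun y => if h : y < β then ih y h else ∅))
  have hD : ∀ ν β, D ν β = P ν β (fun y => if y < β then D ν y else ∅) := by
    intro ν β
    exact WellFounded.fix_eq _ _ _
  have hDs : ∀ ν β, #(D ν β) ≤ l ν ∧ D ν β ⊆ Iio β := by
    intro ν β
    induction β using WellFoundedLT.induction with
    | ind β ih =>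
      have hE : ∀ y, #((if y < β then D ν y else ∅ : Set S)) ≤ l ν ∧
          (if y < β then D ν y else ∅ : Set S) ⊆ Iio y := by
        intro y
        by_cases hy : y < β
        · rw [if_pos hy]
          exact ih y hy
        · rw [if_neg hy]
          refine ⟨?_, empty_subset _⟩
          rw [mk_eq_zero]
          exact zero_le
      rw [hD]
      exact ⟨hP2 ν β _ hE, hP1 ν β _ hE⟩
  have hE : ∀ ν β y, #((if y < β then D ν y else ∅ : Set S)) ≤ l ν ∧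
      (if y < β then D ν y else ∅ : Set S) ⊆ Iio y := by
    intro ν β y
    by_cases hy : y < β
    · rw [if_pos hy]
      exact hDs ν y
    · rw [if_neg hy]
      refine ⟨?_, empty_subset _⟩
      rw [mk_eq_zero]
      exact zero_le
  have hDi : ∀ ν β x y, x ∈ D ν β → y ∈ D ν β → x ∉ D ν y := by
    intro ν β x y hx hy hxy
    have hyβ : y < β := (hDs ν β).2 hy
    rw [hD ν β] at hx hy
    refine hP3 ν β _ (hE ν β) x hx y hy ?_
    rw [if_pos hyβ]
    exact hxy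
  have hDm : ∀ ν β, ∀ ξ ∈ R ν β, succ (succ (l ν)) ≤ #(Y ξ ∩ Iio β : Set S) →
      (D ν β ∩ Y ξ).Nonempty := by
    intro ν β ξ hξ h2
    rw [hD ν β]
    exact hP4 ν β _ (hE ν β) ξ hξ h2
  -- the colouring
  let c0 : S → S → Option C := fun x y => if h : ∃ ν, x ∈ D ν y then some h.choose else none
  have hc0 : ∀ x y ν, c0 x y = some ν → x ∈ D ν y := by
    intro x y ν h
    by_cases hx : ∃ ν, x ∈ D ν y
    · have h1 : c0 x y = some hx.choose := dif_pos hx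
      rw [h1] at h
      rw [← Option.some.inj h]
      exact hx.choose_spec
    · have h1 : c0 x y = none := dif_neg hx
      rw [h1] at h
      exact absurd h (by simp)
  have hc0' : ∀ x y ν, x ∈ D ν y → c0 x y ≠ none := by
    intro x y ν h
    have h1 : c0 x y = some (⟨ν, h⟩ : ∃ ν, x ∈ D ν y).choose := dif_pos ⟨ν, h⟩
    rw [h1]
    simp
  let c : S → S → Option C := fun x y => if x < y then c0 x y else if y < x then c0 y x else none
  have hcl : ∀ x y, x < y → c x y = c0 x y := fun x y h => if_pos h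
  have hcg : ∀ x y, y < x → c x y = c0 y x := fun x y h =>
    (if_neg (not_lt.2 h.le)).trans (if_pos h)
  have hcs : ∀ x y, c x y = c y x := by
    intro x y
    rcases lt_trichotomy x y with h | h | h
    · rw [hcl x y h, hcg y x h]
    · rw [h]
    · rw [hcg x y h, hcl y x h]
  have htri : ∀ ν x y z, x < y → y < z →
      ¬ (c x y = some ν ∧ c x z = some ν ∧ c y z = some ν) := by
    rintro ν x y z hxy hyz ⟨h1, h2, h3⟩
    rw [hcl _ _ hxy] at h1
    rw [hcl _ _ (hxy.trans hyz)] at h2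
    rw [hcl _ _ hyz] at h3
    exact hDi ν z x y (hc0 _ _ _ h2) (hc0 _ _ _ h3) (hc0 _ _ _ h1)
  refine ⟨c, hcs, ?_, ?_⟩
  · rintro ν x y z hxy hxz hyz ⟨h1, h2, h3⟩
    rcases lt_or_gt_of_ne hxy with a | a <;> rcases lt_or_gt_of_ne hxz with b | b <;>
      rcases lt_or_gt_of_ne hyz with d | d
    · exact htri ν x y z a d ⟨h1, h2, h3⟩
    · exact htri ν x z y b d ⟨h2, h1, by rw [hcs]; exact h3⟩
    · exact absurd (a.trans d) (not_lt.2 b.le)
    · exact htri ν z x y b a ⟨by rw [hcs]; exact h2, by rw [hcs]; exact h3, h1⟩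
    · exact htri ν y x z a b ⟨by rw [hcs]; exact h1, h3, h2⟩
    · exact absurd (d.trans a) (not_lt.2 b.le)
    · exact htri ν y z x d b ⟨h3, by rw [hcs]; exact h1, by rw [hcs]; exact h2⟩
    · exact htri ν z y x d a ⟨by rw [hcs]; exact h3, by rw [hcs]; exact h2, by rw [hcs]; exact h1⟩
  · rintro X hX ⟨ξ, hξ⟩
    -- a point of `X` above `ξ` and above `Y ξ`
    have hbad : #(Iic ξ ∪ ⋃ y : Y ξ, Iic y.1 : Set S) ≤ κ := by
      have hIic : ∀ y : S, #(Iic y) ≤ κ := by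
        intro y
        have := mk_Iic_lt y hord (by rw [hS]; exact hk0.trans (le_succ κ))
        rwa [hS, lt_succ_iff] at this
      refine (mk_union_le _ _).trans ((add_le_add (hIic ξ)
        (sfm_union_le hk0 _ (hY ξ).le fun y => hIic y.1)).trans (add_eq_self hk0).le)
    obtain ⟨β, hβX, hβ⟩ := sdiff_nonempty_of_mk_lt_mk
      (hbad.trans_lt ((lt_succ κ).trans_le hX.ge))
    have hξβ : ξ < β := by
      by_contra h
      exact hβ (Or.inl (not_lt.1 h))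
    have hYβ : Y ξ ⊆ Iio β := by
      intro y hy
      by_contra h
      exact hβ (Or.inr (mem_iUnion.2 ⟨⟨y, hy⟩, not_lt.1 h⟩))
    obtain ⟨w, hws, hw⟩ := hs (g β ⟨ξ, hξβ⟩)
    obtain ⟨ν, hν⟩ := e.surjective ⟨w, hws⟩
    have hmem : ξ ∈ R ν β := by
      refine ⟨hξβ, ?_⟩
      rw [hν]
      exact hw
    have hbig : succ (succ (l ν)) ≤ #(Y ξ ∩ Iio β : Set S) := by
      rw [inter_eq_left.2 hYβ, hY ξ]
      exact hlk ν
    obtain ⟨x, hxD, hxY⟩ := hDm ν β ξ hmem hbig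
    have hxβ : x < β := (hDs ν β).2 hxD
    refine ⟨x, hξ hxY, β, hβX, hxβ.ne, ?_⟩
    rw [hcl _ _ hxβ]
    exact hc0' _ _ ν hxD

end Pool.Agent.Results.MP_3e63b3_lc.StickFamily
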